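import Pool.Agent.H65.UB.Wnn

/-!
# [H40 GE WD] MP_8f2e1c_an, THEOREM DIM, chapter GEO (think 1848), LEMMA W: winding numbers of injective functions without zeros on an annulus

`nn h ρ e` (H65/UB/Wnn): `2 π i` times the winding number of the curve `h (‖u‖ = ρ)` around `e`.
`lem_w`: `E` holomorphic, injective, without zeros on `θ < ‖u‖ < 1`. For `θ < ρ < 1` there are constants `i`, `o` (values of `nn E ρ` at the points
`E y`, `‖y‖ < ρ`, resp. `‖y‖ > ρ`) with `i - o = 2 π i` and (`i = 0` or `o = 0`), and `nn E ρ 0` is `i` or `o`. So the winding number about `0` is `0`, `1` or `-1`, and if it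
is `1` then `i = 2 π i`, `o = 0`.
Proof: `nn_jump`; the point of maximal modulus of the curve (`nn_far`), the point nearest to `0` (`nn_loc`), `E` is open.
`nn_rad`: `nn E ρ e` does not depend on `ρ` between two radii without the value `e` in between.
-/

set_option autoImplicit false

open Filter Topology Metric Set

namespace Pool.Agent.H40.GE

open Pool.Agent.H65.UB

variable {E : ℂ → ℂ} {θ ρ : ℝ}

theorem an_open (θ : ℝ) : IsOpen {u : ℂ | θ < ‖u‖ ∧ ‖u‖ < 1} :=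
  (isOpen_lt continuous_const continuous_norm).inter (isOpen_lt continuous_norm continuous_const)

theorem an_at (hd : DifferentiableOn ℂ E {u | θ < ‖u‖ ∧ ‖u‖ < 1}) (h1 : θ < ρ) (h2 : ρ < 1) :
    ∀ u ∈ sphere (0 : ℂ) ρ, AnalyticAt ℂ E u := by
  intro u hu
  rw [mem_sphere_zero_iff_norm] at hu
  exact hd.analyticAt ((an_open θ).mem_nhds ⟨by rw [hu]; exact h1, by rw [hu]; exact h2⟩)

/-- the winding number does not depend on the radius -/
theorem nn_rad (hθ : 0 < θ) (hd : DifferentiableOn ℂ E {u | θ < ‖u‖ ∧ ‖u‖ < 1}) {r R : ℝ} (hr : θ < r) (hrR : r ≤ R)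
    (hR : R < 1) {e : ℂ} (he : ∀ u : ℂ, r ≤ ‖u‖ → ‖u‖ ≤ R → E u ≠ e) : nn E R e = nn E r e := by
  have hA := an_open θ
  have hf : ∀ u : ℂ, r ≤ ‖u‖ → ‖u‖ ≤ R →
      DifferentiableAt ℂ (fun u => deriv E u / (E u - e) * u) u := by
    intro u h1 h2
    have hu : u ∈ {u : ℂ | θ < ‖u‖ ∧ ‖u‖ < 1} := ⟨by linarith, by linarith⟩
    have ha := hd.analyticAt (hA.mem_nhds hu)
    exact (ha.deriv.differentiableAt.div (ha.differentiableAt.sub_const e)
      (sub_ne_zero.2 (he u h1 h2))).mul differentiableAt_id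
  have hr0 : 0 < r := hθ.trans hr
  have hmain := Complex.circleIntegral_sub_center_inv_smul_eq_of_differentiable_on_annulus_off_countable
    (c := (0 : ℂ)) (s := ∅) (f := fun u => deriv E u / (E u - e) * u) hr0 hrR Set.countable_empty
    (by
      rintro u ⟨h1, h2⟩
      rw [mem_closedBall_zero_iff] at h1
      rw [mem_ball_zero_iff, not_lt] at h2
      exact (hf u h2 h1).continuousAt.continuousWithinAt)
    (by
      rintro u ⟨⟨h1, h2⟩, -⟩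
      rw [mem_ball_zero_iff] at h1
      rw [mem_closedBall_zero_iff, not_le] at h2
      exact hf u h2.le h1.le)
  have hc : ∀ R' : ℝ, 0 < R' → (∮ u in C(0, R'), (u - 0)⁻¹ • (deriv E u / (E u - e) * u)) = nn E R' e := by
    intro R' hR'
    refine circleIntegral.integral_congr hR'.le fun u hu => ?_
    have hu0 : u ≠ 0 := by
      rintro rfl
      rw [mem_sphere_zero_iff_norm, norm_zero] at hu
      exact hR'.ne hu
    rw [sub_zero, smul_eq_mul]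
    field_simp
  rw [hc R (hr0.trans_le hrR), hc r hr0] at hmain
  exact hmain

/-- near a point of the annulus the function takes the values `(1 + s) E u`, `s` small real -/
theorem near (hd : DifferentiableOn ℂ E {u | θ < ‖u‖ ∧ ‖u‖ < 1}) (hi : InjOn E {u | θ < ‖u‖ ∧ ‖u‖ < 1})
    {u : ℂ} (h1 : θ < ‖u‖) (h2 : ‖u‖ < 1) {s : ℝ} (hs : 0 < s) :
    ∃ t : ℝ, 0 < t ∧ t < s ∧ (∃ y : ℂ, θ < ‖y‖ ∧ ‖y‖ < 1 ∧ E y = (1 + t : ℝ) * E u) ∧
      ∃ y : ℂ, θ < ‖y‖ ∧ ‖y‖ < 1 ∧ E y = (1 - t : ℝ) * E u := by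
  have hu : u ∈ {u : ℂ | θ < ‖u‖ ∧ ‖u‖ < 1} := ⟨h1, h2⟩
  have hm := (an_open θ).mem_nhds hu
  have ha := hd.analyticAt hm
  have hop : 𝓝 (E u) ≤ map E (𝓝 u) := by
    rcases ha.eventually_constant_or_nhds_le_map_nhds with h | h
    · exfalso
      obtain ⟨y, hy, hyu⟩ : ∃ y, (E y = E u ∧ y ∈ {u : ℂ | θ < ‖u‖ ∧ ‖u‖ < 1}) ∧ y ≠ u := by
        have h3 : ∀ᶠ y in 𝓝[≠] u, E y = E u ∧ y ∈ {u : ℂ | θ < ‖u‖ ∧ ‖u‖ < 1} :=
          (h.and hm).filter_mono nhdsWithin_le_nhds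
        obtain ⟨y, hy1, hy2⟩ := (h3.and self_mem_nhdsWithin).exists
        exact ⟨y, hy1, hy2⟩
      exact hyu (hi hy.2 hu hy.1)
    · exact h
  have h3 : E '' {u : ℂ | θ < ‖u‖ ∧ ‖u‖ < 1} ∈ 𝓝 (E u) := hop (image_mem_map hm)
  have c1 : Tendsto (fun t : ℝ => ((1 + t : ℝ) : ℂ) * E u) (𝓝[>] 0) (𝓝 (E u)) := by
    have h4 : Continuous fun t : ℝ => ((1 + t : ℝ) : ℂ) * E u := by fun_prop
    have h5 := h4.tendsto 0
    simp only [add_zero, Complex.ofReal_one, one_mul] at h5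
    exact h5.mono_left nhdsWithin_le_nhds
  have c2 : Tendsto (fun t : ℝ => ((1 - t : ℝ) : ℂ) * E u) (𝓝[>] 0) (𝓝 (E u)) := by
    have h4 : Continuous fun t : ℝ => ((1 - t : ℝ) : ℂ) * E u := by fun_prop
    have h5 := h4.tendsto 0
    simp only [sub_zero, Complex.ofReal_one, one_mul] at h5
    exact h5.mono_left nhdsWithin_le_nhds
  have hs' : ∀ᶠ t : ℝ in 𝓝[>] 0, t < s := (gt_mem_nhds hs).filter_mono nhdsWithin_le_nhds
  obtain ⟨t, ⟨⟨h5, h6⟩, h7⟩, h8⟩ := (((c1.eventually h3).and (c2.eventually h3)).and hs' |>.and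
    self_mem_nhdsWithin).exists
  obtain ⟨y, hy, hyE⟩ := h5
  obtain ⟨y', hy', hyE'⟩ := h6
  exact ⟨t, h8, h7, ⟨y, hy.1, hy.2, hyE⟩, y', hy'.1, hy'.2, hyE'⟩

/-- LEMMA W, with the two constants -/
theorem lem_io (hθ : 0 < θ) (hd : DifferentiableOn ℂ E {u | θ < ‖u‖ ∧ ‖u‖ < 1})
    (hi : InjOn E {u | θ < ‖u‖ ∧ ‖u‖ < 1}) (h0 : ∀ u : ℂ, θ < ‖u‖ → ‖u‖ < 1 → E u ≠ 0) (h1 : θ < ρ) (h2 : ρ < 1) :
    ∃ i o : ℂ, i - o = 2 * Real.pi * Complex.I ∧ (i = 0 ∨ o = 0) ∧ (nn E ρ 0 = i ∨ nn E ρ 0 = o) ∧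
      (∀ y : ℂ, θ < ‖y‖ → ‖y‖ < ρ → nn E ρ (E y) = i) ∧ ∀ y : ℂ, ρ < ‖y‖ → ‖y‖ < 1 → nn E ρ (E y) = o := by
  have hρ : 0 < ρ := hθ.trans h1
  obtain ⟨ra, ha1, ha2⟩ := exists_between h1
  obtain ⟨rb, hb1, hb2⟩ := exists_between h2
  have hna : ‖(ra : ℂ)‖ = ra := by
    rw [Complex.norm_real, Real.norm_eq_abs, abs_of_pos (hθ.trans ha1)]
  have hnb : ‖(rb : ℂ)‖ = rb := by
    rw [Complex.norm_real, Real.norm_eq_abs, abs_of_pos (hρ.trans hb1)]
  have hj : ∀ a b : ℂ, θ < ‖a‖ → ‖a‖ < ρ → ρ < ‖b‖ → ‖b‖ < 1 →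
      nn E ρ (E a) - nn E ρ (E b) = 2 * Real.pi * Complex.I := fun a b k1 k2 k3 k4 => nn_jump hθ hd hi k1 k2 k3 k4
  have hI : ∀ y : ℂ, θ < ‖y‖ → ‖y‖ < ρ → nn E ρ (E y) = nn E ρ (E (ra : ℂ)) := by
    intro y k1 k2
    have e1 := hj y rb k1 k2 (by rw [hnb]; exact hb1) (by rw [hnb]; exact hb2)
    have e2 := hj ra rb (by rw [hna]; exact ha1) (by rw [hna]; exact ha2) (by rw [hnb]; exact hb1) (by rw [hnb]; exact hb2)
    exact sub_left_inj.1 (e1.trans e2.symm)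
  have hO : ∀ y : ℂ, ρ < ‖y‖ → ‖y‖ < 1 → nn E ρ (E y) = nn E ρ (E (rb : ℂ)) := by
    intro y k1 k2
    have e1 := hj ra y (by rw [hna]; exact ha1) (by rw [hna]; exact ha2) k1 k2
    have e2 := hj ra rb (by rw [hna]; exact ha1) (by rw [hna]; exact ha2) (by rw [hnb]; exact hb1) (by rw [hnb]; exact hb2)
    exact sub_right_inj.1 (e1.trans e2.symm)
  refine ⟨nn E ρ (E (ra : ℂ)), nn E ρ (E (rb : ℂ)), hj ra rb (by rw [hna]; exact ha1) (by rw [hna]; exact ha2)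
    (by rw [hnb]; exact hb1) (by rw [hnb]; exact hb2), ?_, ?_, hI, hO⟩
  · -- the point of maximal modulus
    have hc : ContinuousOn (fun u => ‖E u‖) (sphere (0 : ℂ) ρ) := fun u hu =>
      (an_at hd h1 h2 u hu).continuousAt.norm.continuousWithinAt
    obtain ⟨u, hu, hmax⟩ := (isCompact_sphere (0 : ℂ) ρ).exists_isMaxOn
      (NormedSpace.sphere_nonempty.2 hρ.le) hc
    have hun : ‖u‖ = ρ := mem_sphere_zero_iff_norm.1 hu
    obtain ⟨t, ht, -, ⟨y, hy1, hy2, hyE⟩, -⟩ := near hd hi (u := u) (by rw [hun]; exact h1) (by rw [hun]; exact h2) one_pos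
    have hE0 : 0 < ‖E u‖ := norm_pos_iff.2 (h0 u (by rw [hun]; exact h1) (by rw [hun]; exact h2))
    have hny : ‖E u‖ < ‖E y‖ := by
      rw [hyE, norm_mul, Complex.norm_real, Real.norm_eq_abs, abs_of_pos (by linarith)]
      nlinarith
    have hfar : nn E ρ (E y) = 0 := nn_far hρ (an_at hd h1 h2) fun w hw => (isMaxOn_iff.1 hmax w hw).trans_lt hny
    rcases lt_trichotomy ‖y‖ ρ with k | k | k
    · exact Or.inl ((hI y hy1 k).symm.trans hfar)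
    · exact absurd (isMaxOn_iff.1 hmax y (mem_sphere_zero_iff_norm.2 k)) (not_le.2 hny)
    · exact Or.inr ((hO y k hy2).symm.trans hfar)
  · -- the point nearest to zero
    have hc : ContinuousOn (fun u => ‖E u‖) (sphere (0 : ℂ) ρ) := fun u hu =>
      (an_at hd h1 h2 u hu).continuousAt.norm.continuousWithinAt
    obtain ⟨u, hu, hmin⟩ := (isCompact_sphere (0 : ℂ) ρ).exists_isMinOn
      (NormedSpace.sphere_nonempty.2 hρ.le) hc
    have hun : ‖u‖ = ρ := mem_sphere_zero_iff_norm.1 hu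
    obtain ⟨t, ht, ht1, -, ⟨y, hy1, hy2, hyE⟩⟩ := near hd hi (u := u) (by rw [hun]; exact h1) (by rw [hun]; exact h2) one_pos
    have hE0 : 0 < ‖E u‖ := norm_pos_iff.2 (h0 u (by rw [hun]; exact h1) (by rw [hun]; exact h2))
    have hny : ‖E y‖ < ‖E u‖ := by
      rw [hyE, norm_mul, Complex.norm_real, Real.norm_eq_abs, abs_of_pos (by linarith)]
      nlinarith
    have hloc : nn E ρ 0 = nn E ρ (E y) := nn_loc hρ (an_at hd h1 h2) fun w hw => by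
      rw [zero_sub, norm_neg, sub_zero]
      exact hny.trans_le (isMinOn_iff.1 hmin w hw)
    rcases lt_trichotomy ‖y‖ ρ with k | k | k
    · exact Or.inl (hloc.trans (hI y hy1 k))
    · exact absurd (isMinOn_iff.1 hmin y (mem_sphere_zero_iff_norm.2 k)) (not_le.2 hny)
    · exact Or.inr (hloc.trans (hO y k hy2))

/-- LEMMA W -/
theorem lem_w (hθ : 0 < θ) (hd : DifferentiableOn ℂ E {u | θ < ‖u‖ ∧ ‖u‖ < 1})
    (hi : InjOn E {u | θ < ‖u‖ ∧ ‖u‖ < 1}) (h0 : ∀ u : ℂ, θ < ‖u‖ → ‖u‖ < 1 → E u ≠ 0) (h1 : θ < ρ) (h2 : ρ < 1) :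
    ∃ w : ℤ, (w = -1 ∨ w = 0 ∨ w = 1) ∧ nn E ρ 0 = w * (2 * Real.pi * Complex.I) ∧
      (w = 1 → (∀ y : ℂ, θ < ‖y‖ → ‖y‖ < ρ → nn E ρ (E y) = 2 * Real.pi * Complex.I) ∧
        ∀ y : ℂ, ρ < ‖y‖ → ‖y‖ < 1 → nn E ρ (E y) = 0) ∧
      (w = -1 → (∀ y : ℂ, θ < ‖y‖ → ‖y‖ < ρ → nn E ρ (E y) = 0) ∧
        ∀ y : ℂ, ρ < ‖y‖ → ‖y‖ < 1 → nn E ρ (E y) = -(2 * Real.pi * Complex.I)) := by
  obtain ⟨i, o, hio, hz, hn, hI, hO⟩ := lem_io hθ hd hi h0 h1 h2
  have hp : (2 * Real.pi * Complex.I : ℂ) ≠ 0 := by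
    simp [Real.pi_ne_zero]
  rcases hz with hz | hz
  · subst hz
    have ho : o = -(2 * Real.pi * Complex.I) := by linear_combination -hio
    rcases hn with hn | hn
    · refine ⟨0, Or.inr (Or.inl rfl), by rw [hn]; simp, fun h => absurd h (by norm_num), fun h => absurd h (by norm_num)⟩
    · refine ⟨-1, Or.inl rfl, by rw [hn, ho]; push_cast; ring, fun h => absurd h (by norm_num), fun _ => ⟨hI, fun y k1 k2 => ?_⟩⟩
      rw [hO y k1 k2, ho]
  · subst hz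
    have ho : i = 2 * Real.pi * Complex.I := by linear_combination hio
    rcases hn with hn | hn
    · refine ⟨1, Or.inr (Or.inr rfl), by rw [hn, ho]; push_cast; ring, fun _ => ⟨fun y k1 k2 => ?_, hO⟩, fun h => absurd h (by norm_num)⟩
      rw [hI y k1 k2, ho]
    · refine ⟨0, Or.inr (Or.inl rfl), by rw [hn]; simp, fun h => absurd h (by norm_num), fun h => absurd h (by norm_num)⟩

end Pool.Agent.H40.GE
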